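import Pool.Agent.AT3.Stmts2
import Pool.Agent.Helper97_K9.NZR
import Pool.Agent.Helper97_K9.ORB
import Pool.Agent.Helper69_K9.Fmg

/-!
# Squad AT3, row FUS: the inertial group controls the fusion
-/

open scoped BigOperators

noncomputable section

namespace Pool.Agent.PP.T3.H79

open Pool.Agent.Helper51_AWC Pool.Agent.Helper79_WRA Pool.Agent.PP Pool.Agent.PP.KF
open Pool.Agent.PP.K9 Pool.Agent.PP.K9.H97 Pool.Agent.PP.H75

attribute [local instance] Ideal.Quotient.field

section aux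

variable {F G : Type} [Field F] [Group G] [Finite G]

omit [Finite G] in
/-- the normaliser of `V` normalises the centraliser -/
theorem norm_cent (V : Subgroup G) :
    Subgroup.normalizer (V : Set G) ≤
      Subgroup.normalizer (Subgroup.centralizer (V : Set G) : Set G) := by
  have h0 : ∀ n ∈ Subgroup.normalizer (V : Set G), ∀ x ∈ Subgroup.centralizer (V : Set G),
      n * x * n⁻¹ ∈ Subgroup.centralizer (V : Set G) := by
    intro n hn x hx
    rw [Subgroup.mem_centralizer_iff] at hx ⊢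
    intro q hq
    have h1 : n⁻¹ * q * n ∈ V := by
      have h2 := (Subgroup.mem_normalizer_iff.1 (inv_mem hn) q).1 hq
      rwa [inv_inv] at h2
    have h2 := hx _ h1
    calc q * (n * x * n⁻¹) = n * ((n⁻¹ * q * n) * x) * n⁻¹ := by group
      _ = n * (x * (n⁻¹ * q * n)) * n⁻¹ := by rw [h2]
      _ = (n * x * n⁻¹) * q := by group
  intro n hn
  rw [Subgroup.mem_normalizer_iff]
  intro x
  refine ⟨fun h => h0 n hn x h, fun h => ?_⟩
  have h1 := h0 n⁻¹ (inv_mem hn) _ h
  rwa [show n⁻¹ * (n * x * n⁻¹) * n⁻¹⁻¹ = x by group] at h1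

omit [Finite G] in
theorem cj_br {V : Subgroup G} {n : G} (hn : n ∈ Subgroup.normalizer (V : Set G)) (a : G → F) :
    H75.cj n (br V a) = br V (H75.cj n a) := by
  have hc := norm_cent V
  funext t
  have hiff : n⁻¹ * t * n ∈ Subgroup.centralizer (V : Set G) ↔
      t ∈ Subgroup.centralizer (V : Set G) := conj_mem_iff (hc hn) t
  show br V a (n⁻¹ * t * n) = br V (H75.cj n a) t
  by_cases ht : t ∈ Subgroup.centralizer (V : Set G)
  · rw [H66.br_of_mem ht, H66.br_of_mem (hiff.2 ht)]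
    rfl
  · rw [H66.br_of_not_mem ht, H66.br_of_not_mem (fun h => ht (hiff.1 h))]

end aux

/-- FUS -/
theorem fus (hlsb : LsbStmt) : FusStmt := by
  intro ℓ _ M _ hM G _ _ e V γ hL u hu u' hu' b b' hb hb' g hg hgb
  have hF : GoodF ℓ (FF M) := H50.fld ℓ Fact.out M hM
  have hVC : V ≤ Cu u := fun v hv => Subgroup.mem_centralizer_singleton_iff.2 (hL.ab v hv u hu)
  have hVC' : V ≤ Cu u' := fun v hv =>
    Subgroup.mem_centralizer_singleton_iff.2 (hL.ab v hv u' hu')
  have hXC : Subgroup.centralizer (V : Set G) ≤ Cu u := fun g hg =>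
    Subgroup.mem_centralizer_singleton_iff.2 (Subgroup.mem_centralizer_iff.1 hg u hu).symm
  have hXN : Subgroup.centralizer (V : Set G) ≤ Subgroup.normalizer (V : Set G) :=
    Subgroup.centralizer_le_normalizer _
  obtain ⟨hLb, -⟩ := hlsb ℓ M hM G e V γ hL u hu b hb
  obtain ⟨hf1, ⟨hf2, -⟩, -⟩ := H69.fmg ℓ M hM (Cu u) _ hLb.blk _ hLb.tp
  -- `br_V b` is a block of `N(V) ∩ C(u)`
  have hext : PP.ext0 (Cu u) (fun t : Cu u => b t) = b := by
    funext x
    by_cases hx : x ∈ Cu u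
    · rw [H46.ext0_of_mem _ hx]
    · rw [H46.ext0_of_not_mem _ hx, hb.blk.supp x hx]
  have hbx := bx_of hVC hXC hXN hf2
  rw [hext] at hbx
  -- a good element
  obtain ⟨x, hxV, hxb⟩ : ∃ x ∈ Subgroup.centralizer (V : Set G), b' x ≠ 0 := by
    by_contra hno
    push Not at hno
    apply hL.gam.ne
    rw [← hb'.gam]
    have h0 : br V b' = 0 := by
      funext t
      by_cases ht : t ∈ Subgroup.centralizer (V : Set G)
      · rw [H66.br_of_mem ht, hno t ht]
        rfl
      · rw [H66.br_of_not_mem ht]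
        rfl
    rw [h0]
    funext t
    simp [mulF]
  -- conjugates
  have hQC : conjS g V ≤ Cu u := by
    intro y hy
    rw [mem_conjS] at hy
    have h1 := Subgroup.mem_centralizer_singleton_iff.1 (hVC' hy)
    rw [Subgroup.mem_centralizer_singleton_iff, ← hg]
    have h2 : y * (g * u' * g⁻¹) = g * ((g⁻¹ * y * g) * u') * g⁻¹ := by group
    rw [h2, h1]
    group
  set Q : Subgroup (Cu u) := (conjS g V).subgroupOf (Cu u) with hQ
  have hQp : IsPGroup ℓ Q :=
    (hL.tp.pg.map (MulAut.conj g).toMonoidHom).of_equiv (Subgroup.subgroupOfEquivOfLe hQC).symm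
  have hgxg : ∀ y ∈ conjS g V, y * (g * x * g⁻¹) = (g * x * g⁻¹) * y := by
    intro y hy
    rw [mem_conjS] at hy
    have h1 := Subgroup.mem_centralizer_iff.1 hxV _ hy
    have h2 : y * (g * x * g⁻¹) = g * ((g⁻¹ * y * g) * x) * g⁻¹ := by group
    rw [h2, h1]
    group
  have hgx : g * x * g⁻¹ ∈ Cu u := by
    rw [Subgroup.mem_centralizer_singleton_iff]
    have h1 : u ∈ conjS g V := by
      rw [mem_conjS, ← hg, show g⁻¹ * (g * u' * g⁻¹) * g = u' by group]
      exact hu'
    exact (hgxg u h1).symm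
  have hQg : Gd (fun t : Cu u => b t) Q := by
    refine ⟨⟨g * x * g⁻¹, hgx⟩, ?_, ?_⟩
    · rw [Subgroup.mem_centralizer_iff]
      intro y hy
      exact Subtype.ext (hgxg y hy)
    · show b (g * x * g⁻¹) ≠ 0
      rw [← hgb]
      show b' (g⁻¹ * (g * x * g⁻¹) * g) ≠ 0
      rwa [show g⁻¹ * (g * x * g⁻¹) * g = x by group]
  obtain ⟨c, hc⟩ := hf1 Q hQp hQg
  -- `n = c⁻¹ g` normalises `V`
  set n : G := (c : G)⁻¹ * g with hn
  have h4 : ∀ v ∈ V, n * v * n⁻¹ ∈ V := by
    intro v hv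
    have h5 : g * v * g⁻¹ ∈ conjS g V := by
      rw [mem_conjS, show g⁻¹ * (g * v * g⁻¹) * g = v by group]
      exact hv
    have h6 : (⟨g * v * g⁻¹, hQC h5⟩ : Cu u) ∈ Q := h5
    have h7 := hc h6
    rw [mem_conjS] at h7
    have h8 : (c : G)⁻¹ * (g * v * g⁻¹) * c ∈ V := h7
    rwa [show n * v * n⁻¹ = (c : G)⁻¹ * (g * v * g⁻¹) * c by rw [hn]; group]
  have hnN : n ∈ Subgroup.normalizer (V : Set G) := by
    have h9 : conjS n V = V := by
      apply Subgroup.eq_of_le_of_card_ge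
      · intro y hy
        rw [mem_conjS] at hy
        have := h4 _ hy
        rwa [show n * (n⁻¹ * y * n) * n⁻¹ = y by group] at this
      · exact (Nat.card_congr (V.equivMapOfInjective (MulAut.conj n).toMonoidHom
          (MulAut.conj n).injective).toEquiv).le
    rw [Subgroup.mem_normalizer_iff]
    intro v
    conv_rhs => rw [← h9]
    rw [mem_conjS, show n⁻¹ * (n * v * n⁻¹) * n = v by group]
  have hcu : (c : G) * u = u * c := Subgroup.mem_centralizer_singleton_iff.1 c.2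
  have hnu : n * u' * n⁻¹ = u := by
    have h1 : n * u' * n⁻¹ = (c : G)⁻¹ * (g * u' * g⁻¹) * c := by rw [hn]; group
    rw [h1, hg, mul_assoc, ← hcu]
    group
  have hnb : H75.cj n b' = b := by
    rw [hn, ← cj_cj, hgb]
    exact hb.blk.ix.inv (inv_mem c.2)
  -- the block `cj n γ`
  have hnγ : Bx (Subgroup.centralizer (V : Set G)) (H75.cj n γ) := hL.gam.cj (norm_cent V hnN)
  have hbn : mulF (br V b) (H75.cj n γ) = H75.cj n γ := by
    have h1 := congrArg (H75.cj n) hb'.gam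
    rw [cj_mulF, cj_br hnN, hnb] at h1
    exact h1
  obtain ⟨m, hm, hmn⟩ := H97.orb_main (N := Subgroup.normalizer (V : Set G) ⊓ Cu u)
    (X := Subgroup.centralizer (V : Set G)) (le_inf hXN hXC)
    (inf_le_left.trans (norm_cent V)) hbx hL.gam hnγ hb.gam hbn
  refine ⟨m⁻¹ * n, ⟨Subgroup.mul_mem _ (inv_mem hm.1) hnN, ?_⟩, ?_⟩
  · have h1 : H75.cj (m⁻¹ * n) γ = γ := by
      rw [← cj_cj, hmn, cj_inv_cj]
    exact (cj_eq_iff _ _).1 h1
  · have hmu : m * u = u * m := Subgroup.mem_centralizer_singleton_iff.1 hm.2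
    have h1 : m⁻¹ * n * u' * (m⁻¹ * n)⁻¹ = m⁻¹ * (n * u' * n⁻¹) * m := by group
    rw [h1, hnu, mul_assoc, ← hmu]
    group

end Pool.Agent.PP.T3.H79
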